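import Pool.Agent.Helper79.UN.NGoals
import Pool.Agent.Helper79.UN.Lib

/-!
# MP_57a173_lc, part N, packet MKS: construction of sigma-algebras
-/

noncomputable section

namespace UN.PkMKS

open Pool.Agent.Helper97.Ku NU UL

variable {L : Type} [CompleteBooleanAlgebra L]

theorem iffV_self (a : L) : iffV a a = ⊤ := by
  simp [iffV]

theorem sub_top {C K : BSet L} (h : ∀ t : BSet L, t.mem C ≤ t.mem K) : subV C K = ⊤ := by
  unfold subV
  rw [iInf_eq_top]
  intro t
  exact himp_eq_top_iff.mpr (h t)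

/-- Packet MKS. -/
theorem mks_pf (cmp_ : U_CMP) (_sq : U_SQ) (_ex1 : U_EX1) : U_MKS := by
  intro L _ K ψ b hψ h0 h1 h2
  obtain ⟨hcmp, hpw⟩ := cmp_ L K
  have hS := hpw ψ hψ
  obtain ⟨-, hom, -, -⟩ := Lib.nat L
  have hap := (Lib.ex1 L).2.1
  have hnn : ∀ n : ℕ, (nn n : BSet L).mem omN = ⊤ := by
    intro n
    rw [hom, eq_top_iff]
    refine le_trans ?_ (le_iSup _ n)
    rw [BSet.eq_refl]
  unfold isSigV
  refine le_inf ?_ (le_inf ?_ (le_inf ?_ ?_))
  · refine le_iInf fun Y => ?_
    rw [le_himp_iff, hS Y]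
    exact inf_le_right.trans inf_le_left
  · simp only [hS]
    exact h0
  · refine le_iInf fun Y => ?_
    rw [le_himp_iff, hS Y]
    refine le_trans ?_ (le_iSup _ (cmp K fun x => (x.mem Y)ᶜ))
    have hC := hcmp (fun x => (x.mem Y)ᶜ) (BSet.Ext.compl (BSet.Ext.mem_left Y))
    have e1 : subV (cmp K fun x => (x.mem Y)ᶜ) K = ⊤ := by
      refine sub_top fun t => ?_
      rw [hC]
      exact inf_le_left
    have e2 : isCplV K Y (cmp K fun x => (x.mem Y)ᶜ) = ⊤ := by
      unfold isCplV
      rw [iInf_eq_top]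
      intro x
      rw [hC]
      exact iffV_self _
    rw [hS, e1, e2, top_inf_eq, inf_top_eq]
    exact h1 Y
  · refine le_iInf fun R => ?_
    rw [le_himp_iff]
    set H : L := ⨅ n : BSet L, (n.mem omN ⇨ ⨆ Y : BSet L, (Y.mem (pw K ψ) ⊓ isSecV K R n Y))
      with hH
    set t : ℕ → BSet L := fun n => cmp K (fun x => apV R (nn n) x) with ht
    have htm : ∀ (n : ℕ) (x : BSet L), x.mem (t n) = x.mem K ⊓ apV R (nn n) x :=
      fun n x => hcmp _ (hap R (nn n)).2.2 x
    have hHn : ∀ n, H ≤ (t n).mem (pw K ψ) := by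
      intro n
      have h3 : H ≤ ⨆ Y : BSet L, (Y.mem (pw K ψ) ⊓ isSecV K R (nn n) Y) := by
        have h4 : H ≤ ((nn n).mem omN ⇨ ⨆ Y : BSet L, (Y.mem (pw K ψ) ⊓ isSecV K R (nn n) Y)) :=
          iInf_le _ _
        rw [hnn, top_himp] at h4
        exact h4
      refine h3.trans (iSup_le fun Y => ?_)
      have h5 : isSecV K R (nn n) Y ≤ Y.eq (t n) := by
        rw [BSet.eq_iff_ext]
        unfold isSecV
        refine le_iInf fun x => ?_
        rw [htm]
        refine (iInf_le _ x).trans ?_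
        exact le_rfl
      refine (inf_le_inf_left _ h5).trans ?_
      rw [inf_comm]
      exact BSet.mem_congr_left _ _ _
    have hU := hcmp (fun x => ⨆ n, x.mem (t n)) (BSet.Ext.iSup fun n => BSet.Ext.mem_left (t n))
    refine le_trans ?_ (le_iSup _ (cmp K fun x => ⨆ n, x.mem (t n)))
    have e1 : subV (cmp K fun x => ⨆ n, x.mem (t n)) K = ⊤ := by
      refine sub_top fun s => ?_
      rw [hU]
      exact inf_le_left
    have e2 : isUnV omN K R (cmp K fun x => ⨆ n, x.mem (t n)) = ⊤ := by
      unfold isUnV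
      rw [iInf_eq_top]
      intro x
      rw [hU]
      have e3 : x.mem K ⊓ (⨆ n, x.mem (t n)) =
          x.mem K ⊓ ⨆ n : BSet L, (n.mem omN ⊓ apV R n x) := by
        apply le_antisymm
        · refine le_inf inf_le_left (inf_le_right.trans (iSup_le fun n => ?_))
          rw [htm]
          refine le_trans ?_ (le_iSup _ (nn n))
          rw [hnn, top_inf_eq]
          exact inf_le_right
        · refine le_inf inf_le_left ?_
          rw [inf_iSup_eq]
          refine iSup_le fun u => ?_
          rw [hom, iSup_inf_eq, inf_iSup_eq]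
          refine iSup_le fun n => ?_
          refine le_trans ?_ (le_iSup _ n)
          rw [htm]
          exact inf_le_inf_left _ ((hap R x).2.1 u (nn n))
      rw [e3]
      exact iffV_self _
    rw [hS, e1, e2, top_inf_eq, inf_top_eq]
    refine le_trans (le_inf inf_le_left ?_) (h2 t)
    refine le_iInf fun n => ?_
    rw [← hS]
    exact inf_le_right.trans (hHn n)

end UN.PkMKS
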