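import Pool.Agent.Helper79.UN.NGoals
import Pool.Agent.Helper79.UN.Lib

/-!
# MP_57a173_lc, part N, packet SG0: sets of class 0
-/

noncomputable section

namespace UN.PkSG0

open Pool.Agent.Helper97.Ku NU UL

variable {L : Type} [CompleteBooleanAlgebra L]

theorem le_iffV {c a b : L} : c ≤ iffV a b ↔ c ⊓ a ≤ b ∧ c ⊓ b ≤ a := by
  unfold iffV
  rw [le_inf_iff, le_himp_iff, le_himp_iff]

theorem compl_le {c a b : L} (h : c ⊓ b ≤ a) : c ⊓ aᶜ ≤ bᶜ := by
  rw [le_compl_iff_disjoint_right, disjoint_iff_inf_le]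
  calc c ⊓ aᶜ ⊓ b = (c ⊓ b) ⊓ aᶜ := by ac_rfl
    _ ≤ a ⊓ aᶜ := inf_le_inf_right _ h
    _ = ⊥ := inf_compl_eq_bot

theorem basV_le {c : L} {r r' : ℕ → L} {σ : List Bool}
    (h : ∀ i < σ.length, c ≤ iffV (r i) (r' i)) : c ⊓ basV r σ ≤ basV r' σ := by
  unfold basV
  refine le_iInf fun i => ?_
  have h1 := le_iffV.mp (h i i.2)
  refine (inf_le_inf_left c (iInf_le _ i)).trans ?_
  by_cases hi : σ.get i = true
  · simp only [hi, if_true]
    exact h1.1
  · simp only [hi, if_false]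
    exact compl_le h1.2

/-- Packet SG0. -/
theorem sg0_pf (cmp_ : U_CMP) (ex2 : U_EX2) : U_SG0 := by
  intro L _ K A σ e
  have hcmp := (cmp_ L K).1
  have hbas : BSet.Ext (fun x => basV (rl A x) σ) := (ex2 L Unit (fun _ => ⊤) K A).2.1 σ
  obtain ⟨-, hom, -, hnm⟩ := Lib.nat L
  have hY := hcmp (fun x => (e ⊓ basV (rl A x) σ)ᶜ)
    (BSet.Ext.compl (BSet.Ext.inf (BSet.Ext.const e) hbas))
  set Y : BSet L := cmp K (fun x => (e ⊓ basV (rl A x) σ)ᶜ) with hYd
  have hsub : subV Y K = ⊤ := by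
    unfold subV
    rw [iInf_eq_top]
    intro t
    rw [himp_eq_top_iff, hY]
    exact inf_le_left
  unfold sig0V
  rw [hsub, top_inf_eq, eq_top_iff]
  refine le_trans ?_ (le_iSup _ (nn σ.length))
  have hnn : (nn σ.length : BSet L).mem omN = ⊤ := by
    rw [hom, eq_top_iff]
    refine le_trans ?_ (le_iSup _ σ.length)
    rw [BSet.eq_refl]
  rw [hnn, top_inf_eq]
  refine le_iInf fun x => le_iInf fun x' => ?_
  rw [le_himp_iff, le_himp_iff, le_himp_iff, top_inf_eq]
  set m : L := ⨅ u : BSet L, (u.mem (nn σ.length) ⇨ iffV (apV A u x) (apV A u x')) with hm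
  have hmi : ∀ i < σ.length, m ≤ iffV (rl A x i) (rl A x' i) := by
    intro i hi
    have h1 : m ≤ ((nn i : BSet L).mem (nn σ.length) ⇨ iffV (apV A (nn i) x) (apV A (nn i) x')) :=
      iInf_le _ _
    rw [hnm] at h1
    have h2 : (bo (i < σ.length) : L) = ⊤ := by
      simp [bo, hi]
    rw [h2, top_himp] at h1
    exact h1
  have hmi' : ∀ i < σ.length, m ≤ iffV (rl A x' i) (rl A x i) := by
    intro i hi
    have h1 := le_iffV.mp (hmi i hi)
    exact le_iffV.mpr ⟨h1.2, h1.1⟩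
  have hb := basV_le hmi
  have hb' := basV_le hmi'
  rw [le_iffV, hY, hY]
  constructor
  · refine le_inf ?_ ?_
    · exact inf_le_left.trans (inf_le_left.trans inf_le_right)
    · refine le_trans (b := m ⊓ (e ⊓ basV (rl A x) σ)ᶜ) ?_ ?_
      · exact inf_le_inf inf_le_right inf_le_right
      · refine compl_le ?_
        refine le_inf (inf_le_right.trans inf_le_left) ?_
        exact (inf_le_inf_left _ inf_le_right).trans hb'
  · refine le_inf ?_ ?_
    · exact inf_le_left.trans (inf_le_left.trans inf_le_left)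
    · refine le_trans (b := m ⊓ (e ⊓ basV (rl A x') σ)ᶜ) ?_ ?_
      · exact inf_le_inf inf_le_right inf_le_right
      · refine compl_le ?_
        refine le_inf (inf_le_right.trans inf_le_left) ?_
        exact (inf_le_inf_left _ inf_le_right).trans hb

end UN.PkSG0
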